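import Mathlib
import Pool.Agent.TH779.BS.Main

/-!
# Clusters of primes and bounded Tate-Shafarevich groups of twists

For every `m` there is `K` such that, for every admissible set `H` of at least `K` shifts, for all
elliptic curves `E_i` over `ℚ` with three rational points of order two, all nonzero polynomials
`D_i` (`i < g`) and every `b`, the following holds with a constant `R`: for at least
`c x / (log x) ^ K` integers `n` of `(x, 2 x]` at least `m` of the numbers `n + h`, `h ∈ H`, are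
primes and, for ALL integers `t` with `|t - n| ≤ b`, all the quadratic twists of `E_i` by `D_i(t)`
have rank and 2-primary Tate-Shafarevich group bounded by `R`.
-/

set_option autoImplicit false

namespace Pool.Agent.Results.MP_9c97e9_nt.ClusteredTwists

open Finset Polynomial

open Pool.Agent.TH841.SH.D (Sha ShaTor HasDiv rk)

/-- the quadratic twist `y² = x³ + d² A x + d³ B` of `y² = x³ + A x + B` over `ℚ` by `d` -/
def Tw (A B d : ℤ) : WeierstrassCurve ℚ := ⟨0, 0, 0, ((d ^ 2 * A : ℤ) : ℚ), ((d ^ 3 * B : ℤ) : ℚ)⟩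

/-- `H` is admissible: for every prime `p` there is an integer `b` such that `p` divides none of
the numbers `b + h`, `h ∈ H` -/
def Admissible (H : Finset ℕ) : Prop := ∀ p : ℕ, p.Prime → ∃ b : ℕ, ∀ h ∈ H, ¬ p ∣ b + h

/-- all `Ш[2 ^ k]` are finite, `2 ^ rank * #Ш[2 ^ k] ^ (1 / k) ≤ R` for all `k ≥ 1`, and
`2 ^ (rank + q) ≤ R` if `Ш` has a subgroup `(ℚ₂ / ℤ₂) ^ q` -/
def Bounded (R : ℝ) (W : WeierstrassCurve ℚ) : Prop :=
  (∀ k : ℕ, Finite (ShaTor W (2 ^ k))) ∧
  (∀ k : ℕ, 1 ≤ k →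
    (2 : ℝ) ^ rk W * (Nat.card (ShaTor W (2 ^ k)) : ℝ) ^ ((1 : ℝ) / k) ≤ R) ∧
  ∀ q : ℕ, HasDiv W q → (2 : ℝ) ^ (rk W + q) ≤ R

open Classical in
/-- **Theorem.** For every `m` there is `K` such that for every admissible set `H` of at least `K`
nonnegative integers there is `c > 0` such that for all elliptic curves
`y² = x³ + A_i x + B_i = (x - e₁_i) (x - e₂_i) (x - e₃_i)` with integers `e₁_i`, `e₂_i`, `e₃_i` and
all nonzero polynomials `D_i` with integer coefficients (`i < g`) and every `b` there are `R` and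
`x₀` such that for all `x ≥ x₀` at least `c x / (log x) ^ K` integers `n` with `x < n ≤ 2 x` have
the following property: at least `m` of the numbers `n + h`, `h ∈ H`, are primes, and for all
integers `t` with `|t - n| ≤ b` and all `i` one has `D_i(t) ≠ 0` and the quadratic twist of the
`i`-th curve by `D_i(t)` is bounded by `R`. -/
theorem result (m : ℕ) : ∃ K : ℕ, ∀ H : Finset ℕ, K ≤ H.card → Admissible H →
    ∃ c : ℝ, 0 < c ∧ ∀ (g : ℕ) (A B e₁ e₂ e₃ : Fin g → ℤ),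
      (∀ i, 4 * A i ^ 3 + 27 * B i ^ 2 ≠ 0) →
      (∀ i, ∀ x : ℤ, x ^ 3 + A i * x + B i = (x - e₁ i) * (x - e₂ i) * (x - e₃ i)) →
      ∀ D : Fin g → ℤ[X], (∀ i, D i ≠ 0) → ∀ b : ℕ,
      ∃ R : ℝ, ∃ x₀ : ℕ, ∀ x : ℕ, x₀ ≤ x →
        c * (x / (Real.log x) ^ K) ≤ (((Ioc x (2 * x)).filter (fun n : ℕ =>
          m ≤ (H.filter (fun h => (n + h).Prime)).card ∧
          ∀ t : ℤ, |t - n| ≤ b → ∀ i, (D i).eval t ≠ 0 ∧
            Bounded R (Tw (A i) (B i) ((D i).eval t)))).card : ℝ) := by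
  obtain ⟨K, hK⟩ := Pool.Agent.TH779.BS.clusters m
  refine ⟨K, fun H hH hadm => ?_⟩
  obtain ⟨c, hc, h⟩ := hK H hH hadm
  refine ⟨c, hc, fun g A B e₁ e₂ e₃ hE he D hD b => ?_⟩
  obtain ⟨R, x₀, hR⟩ := h A B e₁ e₂ e₃ hE he D hD b
  refine ⟨R, x₀, fun x hx => (hR x hx).trans ?_⟩
  have hsub : (Ioc x (2 * x)).filter (fun n : ℕ =>
      m ≤ (H.filter (fun h => (n + h).Prime)).card ∧
      ∀ t : ℤ, |t - n| ≤ b → ∀ i, (D i).eval t ≠ 0 ∧
        Pool.Agent.TH841.SH.Bd (Pool.Agent.TH841.PT.TwQ (A i) (B i) ((D i).eval t)) R) ⊆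
      (Ioc x (2 * x)).filter (fun n : ℕ =>
      m ≤ (H.filter (fun h => (n + h).Prime)).card ∧
      ∀ t : ℤ, |t - n| ≤ b → ∀ i, (D i).eval t ≠ 0 ∧
        Bounded R (Tw (A i) (B i) ((D i).eval t))) := by
    intro n hn
    rw [mem_filter] at hn ⊢
    refine ⟨hn.1, hn.2.1, fun t ht i => ?_⟩
    obtain ⟨h1, h2⟩ := hn.2.2 t ht i
    exact ⟨h1, fun k => h2.fin k, fun _ hk => h2.wt_le hk, fun _ hq => h2.div_le le_rfl hq⟩
  exact_mod_cast card_le_card hsub

end Pool.Agent.Results.MP_9c97e9_nt.ClusteredTwists
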