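import Pool.Agent.TH498.CO.Fin

/-!
# Ranks and Tate-Shafarevich groups of the elliptic curves with full rational 2-torsion, ordered
by the conductor

All the elliptic curves over `ℚ` with full rational 2-torsion (any reduction, all quadratic
twists), ordered by the conductor `N_E ≤ N`, with `|Disc| ≤ N ^ K` for an arbitrary constant `K`:
their number is of the exact order `N ^ (2/3)`, the groups `Ш[2 ^ k]` are finite, the average of
`(2 ^ rank * #Ш[2 ^ k] ^ (1 / k)) ^ θ` is bounded for every `θ < 2/3`, and the proportion of the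
curves of rank at least `n` with a subgroup `(ℚ₂ / ℤ₂) ^ m` in `Ш` is `O (2 ^ (-θ (n + m)))`.
-/

set_option autoImplicit false

namespace Pool.Agent.Results.MP_9c97e9_nt.ConductorOrder

open Pool.Agent.TH841.SH.D (Sha ShaTor HasDiv rk)

/-- the discriminant `4a³ - 27b²` of the cubic of the model `y² = x³ - a x - b` -/
def Disc (a b : ℤ) : ℤ := 4 * a ^ 3 - 27 * b ^ 2

/-- the model `y² = x³ - a x - b` is an elliptic curve and it is minimal: `|Disc|` is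
smallest among the integral models `y² = x³ - a' x - b'`, `a' = u⁴ a`, `b' = u⁶ b`, `u ∈ ℚ^×` -/
def IsMinimal (a b : ℤ) : Prop :=
  Disc a b ≠ 0 ∧ ∀ (u : ℚ) (a' b' : ℤ), u ≠ 0 → (a' : ℚ) = u ^ 4 * a → (b' : ℚ) = u ^ 6 * b →
    |Disc a b| ≤ |Disc a' b'|

/-- all 2-torsion points are rational: `x³ - a x - b` splits over `ℚ` -/
def FullTwoTorsion (a b : ℤ) : Prop :=
  ∃ r₁ r₂ r₃ : ℚ, ∀ x : ℚ, x ^ 3 - a * x - b = (x - r₁) * (x - r₂) * (x - r₃)

/-- the prime-to-6 part of the conductor of a minimal model: the product over the primes `p ≥ 5`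
dividing `Disc` of `p` (multiplicative reduction: `p ∤ a`) or `p²` (additive reduction: `p ∣ a`) -/
def Cond6 (a b : ℤ) : ℕ :=
  ∏ p ∈ (Disc a b).natAbs.primeFactors.filter (fun p => 5 ≤ p), if (p : ℤ) ∣ a then p ^ 2 else p

/-- the curve `y² = x³ - a x - b` over `ℚ` -/
def E (a b : ℤ) : WeierstrassCurve ℚ := ⟨0, 0, 0, -(a : ℚ), -(b : ℚ)⟩

lemma sh_eq (a b : ℤ) : Pool.Agent.W307.RT.Sh (-a) (-b) = E a b := by
  unfold Pool.Agent.W307.RT.Sh E
  push_cast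
  rfl

/-- **Theorem.** Let `0 < θ < 2/3` and `K ≥ 2`. There is `C` such that for every function `c` of
the minimal models with full 2-torsion that differs from the prime-to-6 part `N₆` of the conductor
by a factor between `1` and `2 ^ 8 * 3 ^ 5` (for instance `c` = the conductor), and for all real
`N ≥ 4 * 10 ^ 7`, the set `S` of the minimal models with full rational 2-torsion, `c ≤ N` and
`|Disc| ≤ N ^ K` is finite, with `N ^ (2/3) / 10 ^ 6 ≤ #S ≤ C N ^ (2/3)`, and: all the groups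
`Ш[2 ^ k]` are finite; for all `k ≥ 1` the average over `S` of
`(2 ^ rank * #Ш[2 ^ k] ^ (1 / k)) ^ θ` is at most `C`; for all `n`, `m` the curves of rank at least
`n` whose group `Ш` has a subgroup `(ℚ₂ / ℤ₂) ^ m` are at most `C #S / 2 ^ (θ (n + m))`. -/
theorem result (θ : ℝ) (hθ0 : 0 < θ) (hθ : θ < 2 / 3) (K : ℝ) (hK : 2 ≤ K) :
    ∃ C : ℝ, 0 < C ∧ ∀ c : ℤ → ℤ → ℝ,
      (∀ a b : ℤ, IsMinimal a b → FullTwoTorsion a b →
        (Cond6 a b : ℝ) ≤ c a b ∧ c a b ≤ 2 ^ 8 * 3 ^ 5 * (Cond6 a b : ℝ)) →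
      ∀ N : ℝ, 4 * 10 ^ 7 ≤ N → ∃ S : Finset (ℤ × ℤ),
        (∀ q : ℤ × ℤ, q ∈ S ↔ IsMinimal q.1 q.2 ∧ FullTwoTorsion q.1 q.2 ∧ c q.1 q.2 ≤ N ∧
          |((Disc q.1 q.2 : ℤ) : ℝ)| ≤ N ^ K) ∧
        N ^ ((2 : ℝ) / 3) / 10 ^ 6 ≤ (S.card : ℝ) ∧ (S.card : ℝ) ≤ C * N ^ ((2 : ℝ) / 3) ∧
        (∀ q ∈ S, ∀ k : ℕ, Finite (ShaTor (E q.1 q.2) (2 ^ k))) ∧
        (∀ k : ℕ, 1 ≤ k → ∑ q ∈ S, ((2 : ℝ) ^ rk (E q.1 q.2) *
          (Nat.card (ShaTor (E q.1 q.2) (2 ^ k)) : ℝ) ^ ((1 : ℝ) / k)) ^ θ ≤ C * S.card) ∧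
        ∀ n m : ℕ, ∀ T : Finset (ℤ × ℤ), T ⊆ S →
          (∀ q ∈ T, n ≤ rk (E q.1 q.2) ∧ HasDiv (E q.1 q.2) m) →
          (T.card : ℝ) ≤ C * S.card / 2 ^ (θ * ((n : ℝ) + m)) := by
  classical
  obtain ⟨C, hC, hcur⟩ := Pool.Agent.TH498.CO.curves_sum θ hθ0 hθ K (by linarith)
  obtain ⟨C0, hC0, hfin⟩ := Pool.Agent.TH867.EC.curS_upper 1 one_pos
  refine ⟨C * 10 ^ 6, by positivity, ?_⟩
  intro c hc N hN
  have hN1 : 1 ≤ N := by linarith
  have hN0 : 0 < N := by linarith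
  have hlogN : 1 ≤ Real.log N := by
    rw [Real.le_log_iff_exp_le hN0]
    have := Real.exp_one_lt_d9
    linarith
  set F : Set (ℤ × ℤ) := {q | IsMinimal q.1 q.2 ∧ FullTwoTorsion q.1 q.2 ∧ c q.1 q.2 ≤ N ∧
    |((Disc q.1 q.2 : ℤ) : ℝ)| ≤ N ^ K} with hF
  have hsub : F ⊆ Pool.Agent.TH867.EC.CurS N (K * Real.log N) := by
    intro q hq
    obtain ⟨h1, h2, h3, h4⟩ := hq
    refine ⟨h1, h2, (hc q.1 q.2 h1 h2).1.trans h3, ?_⟩
    have h5 : (0 : ℝ) < |((Disc q.1 q.2 : ℤ) : ℝ)| := abs_pos.2 (by exact_mod_cast h1.1)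
    have h6 := Real.log_le_log h5 h4
    rwa [Real.log_rpow hN0] at h6
  have hFfin : F.Finite := (hfin N (K * Real.log N) hN1 (by nlinarith)).1.subset hsub
  set S : Finset (ℤ × ℤ) := hFfin.toFinset with hS
  have hmem : ∀ q : ℤ × ℤ, q ∈ S ↔ IsMinimal q.1 q.2 ∧ FullTwoTorsion q.1 q.2 ∧ c q.1 q.2 ≤ N ∧
      |((Disc q.1 q.2 : ℤ) : ℝ)| ≤ N ^ K := fun q => hFfin.mem_toFinset
  obtain ⟨n, hn, hsum⟩ := hcur N hN1 S (by
    intro q hq
    obtain ⟨h1, h2, h3, h4⟩ := (hmem q).1 hq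
    exact ⟨h1, h2, (hc q.1 q.2 h1 h2).1.trans h3, h4⟩)
  have hcard : (S.card : ℝ) ≤ C * N ^ ((2 : ℝ) / 3) := by
    refine le_trans ?_ hsum
    rw [Finset.card_eq_sum_ones, Nat.cast_sum]
    refine Finset.sum_le_sum fun q hq => ?_
    rw [Nat.cast_one]
    exact Real.one_le_rpow (Pool.Agent.TH498.CO.one_le_of_bd (hn q hq)) hθ0.le
  have hlow : N ^ ((2 : ℝ) / 3) / 10 ^ 6 ≤ (S.card : ℝ) := by
    obtain ⟨R, hR⟩ : ∃ R : ℝ, R = N / 62208 := ⟨_, rfl⟩
    have hR1 : 576 ≤ R := by rw [hR, le_div_iff₀ (by norm_num)]; linarith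
    have hR0 : 0 < R := by linarith
    have hRN : R ≤ N := by rw [hR]; exact div_le_self hN0.le (by norm_num)
    have h1 := Pool.Agent.TH867.EC.curS_lower R (2 * Real.log R) hR1 le_rfl
    have h2 : Pool.Agent.TH867.EC.CurS R (2 * Real.log R) ⊆ (S : Set (ℤ × ℤ)) := by
      intro q hq
      obtain ⟨g1, g2, g3, g4⟩ := hq
      rw [Finset.mem_coe]
      refine (hmem q).2 ⟨g1, g2, ?_, ?_⟩
      · have g5 := (hc q.1 q.2 g1 g2).2
        have g6 : (Cond6 q.1 q.2 : ℝ) ≤ R := g3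
        rw [hR, le_div_iff₀ (by norm_num)] at g6
        have g7 : (2 : ℝ) ^ 8 * 3 ^ 5 = 62208 := by norm_num
        rw [g7] at g5
        linarith
      · have g5 : (0 : ℝ) < |((Disc q.1 q.2 : ℤ) : ℝ)| := abs_pos.2 (by exact_mod_cast g1.1)
        have g6 : Real.log |((Disc q.1 q.2 : ℤ) : ℝ)| ≤ K * Real.log N := by
          refine le_trans g4 ?_
          have g7 : Real.log R ≤ Real.log N := Real.log_le_log hR0 hRN
          nlinarith
        rw [← Real.log_rpow hN0] at g6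
        exact (Real.log_le_log_iff g5 (by positivity)).1 g6
    have h3 : ((Pool.Agent.TH867.EC.CurS R (2 * Real.log R)).ncard : ℝ) ≤ S.card := by
      have := Set.ncard_le_ncard h2 S.finite_toSet
      rw [Set.ncard_coe_finset] at this
      exact_mod_cast this
    refine le_trans ?_ (h1.trans h3)
    have h4 : (62208 : ℝ) ^ ((2 : ℝ) / 3) ≤ 1600 := by
      have e1 : (62208 : ℝ) ^ ((2 : ℝ) / 3) = ((62208 : ℝ) ^ 2) ^ ((1 : ℝ) / 3) := by
        rw [← Real.rpow_natCast, ← Real.rpow_mul (by norm_num)]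
        norm_num
      have e2 : (1600 : ℝ) = ((1600 : ℝ) ^ 3) ^ ((1 : ℝ) / 3) := by
        rw [← Real.rpow_natCast, ← Real.rpow_mul (by norm_num)]
        norm_num
      rw [e1, e2]
      exact Real.rpow_le_rpow (by norm_num) (by norm_num) (by norm_num)
    have h5 : N ^ ((2 : ℝ) / 3) = 62208 ^ ((2 : ℝ) / 3) * R ^ ((2 : ℝ) / 3) := by
      rw [← Real.mul_rpow (by norm_num) hR0.le, hR]
      congr 1
      ring
    have h6 : 0 ≤ R ^ ((2 : ℝ) / 3) := by positivity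
    rw [h5, div_le_iff₀ (by norm_num)]
    nlinarith
  have hS0 : C * N ^ ((2 : ℝ) / 3) ≤ C * 10 ^ 6 * S.card := by
    rw [div_le_iff₀ (by norm_num)] at hlow
    have : C * N ^ ((2 : ℝ) / 3) ≤ C * (S.card * 10 ^ 6) :=
      mul_le_mul_of_nonneg_left hlow (by linarith)
    linarith
  obtain ⟨f1, f2, f3⟩ := Pool.Agent.TH498.CO.family_real S (fun q => E q.1 q.2) n
    (C * N ^ ((2 : ℝ) / 3)) θ hθ0 (fun q hq => by
      rw [← sh_eq]
      exact hn q hq) hsum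
  refine ⟨S, hmem, hlow, ?_, f1, fun k hk => (f2 k hk).trans hS0, ?_⟩
  · refine hcard.trans ?_
    refine mul_le_mul_of_nonneg_right ?_ (by positivity)
    linarith
  · intro r δ T hT hTr
    refine (f3 r δ T hT hTr).trans ?_
    exact div_le_div_of_nonneg_right hS0 (by positivity)

end Pool.Agent.Results.MP_9c97e9_nt.ConductorOrder
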