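import Mathlib
import Pool.Agent.TH841.PM.Fin2

/-!
# All moments of the 2-Selmer orders in one-parameter families

`W_t : y² = x (x - D(t) u₀(t)) (x - D(t) u₁(t))`, where `u₀`, `u₁` and `u₂ = u₀ - u₁` are
polynomials with integer coefficients, `u_k` being a constant times a product of `n_k` irreducible
polynomials, these `n₀ + n₁ + n₂` irreducible polynomials being pairwise different, and `D` is any
nonzero polynomial not divisible by one of them. Assume the strict triangle inequalities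
`2 n_k < n₀ + n₁ + n₂`, `k = 0, 1, 2`. Outside of a set `Z` of integers of density zero (uniformly
in all intervals `(N, N + M]` with `|N| ≤ M ^ L`), all the moments of
`2 ^ rank * #Ш[2 ^ j] ^ (1 / j)` over the `t` of such an interval are bounded. So the upper density
of the `t` for which `W_t` has rank at least `r` and a subgroup `(ℚ₂ / ℤ₂) ^ q` in its
Tate-Shafarevich group decreases faster than `A ^ (-(r + q))` for every `A`.
-/

set_option autoImplicit false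

namespace Pool.Agent.Results.MP_9c97e9_nt.PencilTails

open Finset Polynomial

open Pool.Agent.TH841.SH.D (Sha ShaTor HasDiv rk)

/-- the curve `y² = x (x - A) (x - B)` over `ℚ` -/
def E (A B : ℤ) : WeierstrassCurve ℚ := ⟨0, -((A : ℚ) + B), 0, (A : ℚ) * B, 0⟩

/-- `u_k = a_k ∏ f_{k,i}` -/
noncomputable def u {n : Fin 3 → ℕ} (a : Fin 3 → ℤ) (f : ∀ k : Fin 3, Fin (n k) → ℤ[X])
    (k : Fin 3) : ℤ[X] := C (a k) * ∏ i, f k i

/-- the fibre at `t` -/
noncomputable def fib {n : Fin 3 → ℕ} (D : ℤ[X]) (a : Fin 3 → ℤ)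
    (f : ∀ k : Fin 3, Fin (n k) → ℤ[X]) (t : ℤ) : WeierstrassCurve ℚ :=
  E ((D * u a f 0).eval t) ((D * u a f 1).eval t)

open Classical in
/-- the proportion of the elements of `Z` in the interval `(N, N + M]` tends to zero as `M` tends to
infinity, uniformly for `|N| ≤ M ^ L`, for every `L` -/
def DensityZero (Z : Set ℤ) : Prop := ∀ (L : ℕ) (ε : ℝ), 0 < ε → ∃ M₀ : ℕ, ∀ (N : ℤ) (M : ℕ),
  M₀ ≤ M → |N| ≤ (M : ℤ) ^ L → (((Ioc N (N + (M : ℤ))).filter (fun t => t ∈ Z)).card : ℝ) ≤ ε * M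

open Classical in
/-- **Theorem.** Let `u_k = a_k ∏_{i < n_k} f_{k,i}`, `k = 0, 1, 2`, be polynomials with integer
coefficients with `u₀ - u₁ = u₂`, where `a_k ≠ 0` and the `n₀ + n₁ + n₂` polynomials `f_{k,i}` are
irreducible of positive degree and pairwise non-associated, and let `D ≠ 0` be a polynomial with
integer coefficients not divisible by any `f_{k,i}`. Assume that `2 n_k < n₀ + n₁ + n₂` for
`k = 0, 1, 2`. There is a set `Z` of integers of density zero, uniformly in short intervals,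
containing all the `t` for which `D(t) u₀(t) u₁(t) u₂(t) = 0`, such that for every `k` and `L` there
is `C` such that for all integers `M ≥ 1` and `|N| ≤ M ^ L` and the elliptic curves
`W_t : y² = x (x - D(t) u₀(t)) (x - D(t) u₁(t))` with `N < t ≤ N + M`, `t` not in `Z`: all the
groups `Ш(W_t)[2 ^ j]` are finite, the sum of `(2 ^ rank * #Ш(W_t)[2 ^ j] ^ (1 / j)) ^ k` is at most
`C M` for all `j ≥ 1`, and at most `C M / 2 ^ (k (r + q))` of the `W_t` have rank at least `r` and a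
subgroup `(ℚ₂ / ℤ₂) ^ q` in the Tate-Shafarevich group. -/
theorem result (n : Fin 3 → ℕ) (a : Fin 3 → ℤ) (f : ∀ k : Fin 3, Fin (n k) → ℤ[X]) (D : ℤ[X])
    (ha : ∀ k, a k ≠ 0) (hf : ∀ k i, Irreducible (f k i) ∧ 0 < (f k i).natDegree)
    (hf' : ∀ k i l j, (⟨k, i⟩ : Σ k : Fin 3, Fin (n k)) ≠ ⟨l, j⟩ → ¬ Associated (f k i) (f l j))
    (hu : u a f 0 - u a f 1 = u a f 2) (hD : D ≠ 0) (hDf : ∀ k i, ¬ f k i ∣ D)
    (hn : ∀ k, 2 * n k < n 0 + n 1 + n 2) :
    ∃ Z : Set ℤ, DensityZero Z ∧ (∀ t, t ∉ Z → ∀ k, (D * u a f k).eval t ≠ 0) ∧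
      ∀ k L : ℕ, ∃ C : ℝ, ∀ (N : ℤ) (M : ℕ), 1 ≤ M → |N| ≤ (M : ℤ) ^ L →
      (∀ t ∈ (Ioc N (N + (M : ℤ))).filter (fun t => t ∉ Z), ∀ j : ℕ,
        Finite (ShaTor (fib D a f t) (2 ^ j))) ∧
      (∀ j : ℕ, 1 ≤ j → ∑ t ∈ (Ioc N (N + (M : ℤ))).filter (fun t => t ∉ Z),
        ((2 : ℝ) ^ rk (fib D a f t) *
          (Nat.card (ShaTor (fib D a f t) (2 ^ j)) : ℝ) ^ ((1 : ℝ) / j)) ^ k ≤ C * M) ∧
      ∀ r q : ℕ, ((((Ioc N (N + (M : ℤ))).filter (fun t => t ∉ Z)).filter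
        (fun t => r ≤ rk (fib D a f t) ∧ HasDiv (fib D a f t) q)).card : ℝ) ≤
          C * M / 2 ^ (k * (r + q)) := by
  have hirr : Pool.Agent.TH841.PT.Irr (Pool.Agent.TH841.TR.fp f) :=
    ⟨fun x => (hf x.1 x.2).1, fun x => (hf x.1 x.2).2, fun x y hxy => hf' x.1 x.2 y.1 y.2 hxy⟩
  obtain ⟨Z, hZ1, hZ2, hZ3⟩ := Pool.Agent.TH841.PM.penZQ Pool.Agent.TH841.PM.tavz a f ha hirr hu D
    hD hDf hn
  refine ⟨Z, hZ1, hZ2, fun k L => ?_⟩
  obtain ⟨C, hC⟩ := hZ3 k L
  exact ⟨C, fun N M hM hN => hC N M hM hN _ rfl⟩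

end Pool.Agent.Results.MP_9c97e9_nt.PencilTails
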