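import Mathlib
import Pool.Agent.TH841.PT.Fin2

/-!
# Tate-Shafarevich groups of quadratic twists at prime arguments

`E : y² = x³ + A x + B` is an elliptic curve with three integer roots, `D` an arbitrary nonzero
polynomial and `G₀, ..., G_r` are pairwise different irreducible polynomials with integer
coefficients, of any degrees. For all `s` and `k` the sum of `(2 ^ rank * #Ш[2 ^ k] ^ (1 / k)) ^ s`
over the twists of `E` by `D(t)`, for the `t` with `N < t ≤ N + M` for which all the `G_i(t)` are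
primes (up to the sign), is at most `C M / (log M) ^ (r + 1)`, uniformly for `|N| ≤ M ^ L`. For
`r = 0`, `G₀ = X` these are the twists by `D(p)`, `p` prime.
-/

set_option autoImplicit false

namespace Pool.Agent.Results.MP_9c97e9_nt.PrimeTwists

open Finset Polynomial

open Pool.Agent.TH841.SH.D (Sha ShaTor HasDiv rk)

/-- the quadratic twist `y² = x³ + d² A x + d³ B` of `y² = x³ + A x + B` over `ℚ` by `d` -/
def Tw (A B d : ℤ) : WeierstrassCurve ℚ := ⟨0, 0, 0, ((d ^ 2 * A : ℤ) : ℚ), ((d ^ 3 * B : ℤ) : ℚ)⟩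

open Classical in
/-- the integers `t` with `N < t ≤ N + M` and `D(t) ≠ 0`, for which all the `|G_i(t)|` are
primes -/
noncomputable def Par {r : ℕ} (D : ℤ[X]) (G : Fin (r + 1) → ℤ[X]) (N : ℤ) (M : ℕ) : Finset ℤ :=
  (Ioc N (N + M)).filter (fun t => D.eval t ≠ 0 ∧ ∀ i, ((G i).eval t).natAbs.Prime)

open Classical in
/-- **Theorem.** Let `y² = (x - e₁) (x - e₂) (x - e₃) = x³ + A x + B` be an elliptic curve with
integers `e₁`, `e₂`, `e₃`, `D ≠ 0` a polynomial and `G₀, ..., G_r` pairwise non-associated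
irreducible polynomials of positive degree, with integer coefficients. Let `W_t` be the
quadratic twist of the curve by `D(t)`. For all `s` and `L` there is `C` such that for all integers
`M ≥ 2` and `|N| ≤ M ^ L` and the `t` with `N < t ≤ N + M`, `D(t) ≠ 0`, such that all the numbers
`|G_i(t)|` are primes: the groups `Ш(W_t)[2 ^ k]` are finite, the sum of
`(2 ^ rank * #Ш(W_t)[2 ^ k] ^ (1 / k)) ^ s` is at most `C M / (log M) ^ (r + 1)` for all `k ≥ 1`,
and at most `C M / (log M) ^ (r + 1) / 2 ^ (s (n + q))` of these `t` have a twist `W_t` of rank at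
least `n` with a subgroup `(ℚ₂ / ℤ₂) ^ q` in the Tate-Shafarevich group. -/
theorem result (A B e₁ e₂ e₃ : ℤ) (hE : 4 * A ^ 3 + 27 * B ^ 2 ≠ 0)
    (he : ∀ x : ℤ, x ^ 3 + A * x + B = (x - e₁) * (x - e₂) * (x - e₃))
    (D : ℤ[X]) (hD : D ≠ 0) (r : ℕ) (G : Fin (r + 1) → ℤ[X])
    (hG : ∀ i, Irreducible (G i) ∧ 0 < (G i).natDegree)
    (hG' : ∀ i j, i ≠ j → ¬ Associated (G i) (G j)) (s L : ℕ) :
    ∃ C : ℝ, ∀ (N : ℤ) (M : ℕ), 2 ≤ M → |N| ≤ (M : ℤ) ^ L →
      (∀ t ∈ Par D G N M, ∀ k : ℕ, Finite (ShaTor (Tw A B (D.eval t)) (2 ^ k))) ∧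
      (∀ k : ℕ, 1 ≤ k → ∑ t ∈ Par D G N M, ((2 : ℝ) ^ rk (Tw A B (D.eval t)) *
        (Nat.card (ShaTor (Tw A B (D.eval t)) (2 ^ k)) : ℝ) ^ ((1 : ℝ) / k)) ^ s ≤
          C * (M / (Real.log M) ^ (r + 1))) ∧
      ∀ n q : ℕ, (((Par D G N M).filter (fun t => n ≤ rk (Tw A B (D.eval t)) ∧
        HasDiv (Tw A B (D.eval t)) q)).card : ℝ) ≤
          C * (M / (Real.log M) ^ (r + 1)) / 2 ^ (s * (n + q)) := by
  have hirr : Pool.Agent.TH841.PT.Irr G :=
    ⟨fun i => (hG i).1, fun i => (hG i).2, hG'⟩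
  obtain ⟨C, hC⟩ := Pool.Agent.TH841.PT.sha_prime Pool.Agent.TH841.PT.avh hirr hE he D hD s L
  refine ⟨C, fun N M hM hN => ?_⟩
  have hPar : Par D G N M = (Ioc N (N + M)).filter
      (fun t => D.eval t ≠ 0 ∧ Pool.Agent.TH841.PT.AllPr G t) := by
    unfold Par
    ext t
    simp only [mem_filter, Pool.Agent.TH841.PT.AllPr]
  rw [hPar]
  obtain ⟨h1, h2, h3⟩ := hC N M hM hN
  exact ⟨h1, h2, h3⟩

end Pool.Agent.Results.MP_9c97e9_nt.PrimeTwists
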